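import Pool.Agent.Helper46.C2.St

/-!
# Project C2 (MP_b3ce06_al): module RU, the rule for the Weyl group in characteristic two
-/

set_option autoImplicit false

namespace Pool.Agent.Helper95.C2

open Pool.Agent.Helper43.GD Pool.Agent.Helper46.C2

/-- In a finite ring the inverse of a unit is a power. -/
private theorem inv_eq_pow {L : Type} [CommRing L] [Finite L] (e : Lˣ) : ∃ k : ℕ, e⁻¹ = e ^ k := by
  obtain ⟨n, hn, hp⟩ := isOfFinOrder_iff_pow_eq_one.1 (isOfFinOrder_of_finite e)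
  refine ⟨n - 1, ?_⟩
  rw [inv_eq_iff_mul_eq_one, ← pow_succ']
  rw [Nat.sub_add_cancel hn]
  exact hp

/-- The multiplier ring of an additive subgroup. -/
private def mr {L : Type} [CommRing L] (N : AddSubgroup L) : Subring L where
  carrier := {z | ∀ y ∈ N, z * y ∈ N}
  mul_mem' := by
    intro a b ha hb y hy
    rw [mul_assoc]
    exact ha _ (hb _ hy)
  one_mem' := by
    intro y hy
    rwa [one_mul]
  add_mem' := by
    intro a b ha hb y hy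
    rw [add_mul]
    exact N.add_mem (ha _ hy) (hb _ hy)
  zero_mem' := by
    intro y _
    rw [zero_mul]
    exact N.zero_mem
  neg_mem' := by
    intro a ha y hy
    rw [neg_mul]
    exact N.neg_mem (ha _ hy)

private theorem mr_inv {L : Type} [CommRing L] [Finite L] (N : AddSubgroup L) (e : Lˣ)
    (he : (e : L) ∈ mr N) : ((e⁻¹ : Lˣ) : L) ∈ mr N := by
  obtain ⟨k, hk⟩ := inv_eq_pow e
  rw [hk, Units.val_pow_eq_pow_val]
  exact pow_mem he k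

theorem hRU (h1 : Pool.Agent.Helper43.GD.StP1) (h2 : Pool.Agent.Helper43.GD.StP2)
    (h3 : Pool.Agent.Helper50.AY.StCMB2) : StRU := by
  intro L A _ _ Q m ξ η hfin two hm hpow hIξ hIη hIξ1 hIη1 hun hN
  obtain ⟨X, hX, hXe⟩ := hIξ
  obtain ⟨H, hH, hHe⟩ := hIη
  obtain ⟨X1, hX1, hX1e⟩ := hIξ1
  obtain ⟨H1, hH1, hH1e⟩ := hIη1
  obtain ⟨D, hD⟩ := hun
  rw [← hXe] at hX1e hD hN
  rw [← hHe] at hH1e hD hN
  rw [← hXe, ← hHe]
  have hXX : (X : L) * ((X⁻¹ : Lˣ) : L) = 1 := X.mul_inv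
  have hDD : (D : L) * ((D⁻¹ : Lˣ) : L) = 1 := D.mul_inv
  have hHH : (H1 : L) * ((H1⁻¹ : Lˣ) : L) = 1 := H1.mul_inv
  obtain ⟨y, hy⟩ : ∃ y : Lˣ, y = H * X⁻¹ := ⟨_, rfl⟩
  obtain ⟨u, hu⟩ : ∃ u : Lˣ, u = X * D⁻¹ := ⟨_, rfl⟩
  obtain ⟨ρ, hρ⟩ : ∃ ρ : Lˣ, ρ = X1 * H1⁻¹ := ⟨_, rfl⟩
  have hyv : (y : L) = (H : L) * ((X⁻¹ : Lˣ) : L) := by rw [hy, Units.val_mul]
  have huv : (u : L) = (X : L) * ((D⁻¹ : Lˣ) : L) := by rw [hu, Units.val_mul]
  have hρv : (ρ : L) = (X1 : L) * ((H1⁻¹ : Lˣ) : L) := by rw [hρ, Units.val_mul]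
  have hyU : y ∈ Q.U := by
    rw [hy]
    exact Q.U.mul_mem hH (Q.U.inv_mem hX)
  have hρU : ρ ∈ Q.U := by
    rw [hρ]
    exact Q.U.mul_mem hX1 (Q.U.inv_mem hH1)
  have hyu : ((y : L) - 1) * (u : L) = 1 := by
    rw [hyv, huv]
    linear_combination ((H : L) * ((D⁻¹ : Lˣ) : L)) * hXX + hDD - ((D⁻¹ : Lˣ) : L) * hD
      - ((X : L) * ((D⁻¹ : Lˣ) : L)) * two
  -- (i)
  have s1 : Q.S u y := h1 L A Q u y 1 hyU Q.U.one_mem (by
    rw [Units.val_one]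
    exact hyu.symm)
  -- (ii)
  have s2 : Q.S u ρ := h1 L A Q u ρ (X * H1⁻¹) hρU (Q.U.mul_mem hX (Q.U.inv_mem hH1)) (by
    rw [Units.val_mul, hρv, huv]
    linear_combination (-((X : L) * ((H1⁻¹ : Lˣ) : L))) * hDD
      + ((X : L) * ((D⁻¹ : Lˣ) : L) * ((H1⁻¹ : Lˣ) : L) * (H : L)) * two
      + ((X : L) * ((D⁻¹ : Lˣ) : L) * ((H1⁻¹ : Lˣ) : L)) * hD
      - ((X : L) * ((D⁻¹ : Lˣ) : L) * ((H1⁻¹ : Lˣ) : L)) * hX1e
      + ((X : L) * ((D⁻¹ : Lˣ) : L) * ((H1⁻¹ : Lˣ) : L)) * hH1e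
      - ((X : L) * ((D⁻¹ : Lˣ) : L)) * hHH)
  -- (iii)
  have s3 : Q.S (u * u) (y * y) := h1 L A Q (u * u) (y * y) 1 (Q.U.mul_mem hyU hyU) Q.U.one_mem (by
    rw [Units.val_one, Units.val_mul, Units.val_mul]
    linear_combination (-(((y : L) - 1) * (u : L) + 1)) * hyu
      - (((y : L) - 1) * (u : L) * (u : L)) * two)
  have s4 : Q.S (u * u) y := by
    have h4 := Q.S_pow s3 (2 ^ (m - 1))
    have h5 : (y * y) ^ (2 ^ (m - 1)) = y := by
      apply Units.ext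
      rw [← sq, ← pow_mul, ← pow_succ', Nat.sub_add_cancel hm, Units.val_pow_eq_pow_val]
      exact hpow _
    rwa [h5] at h4
  have hui : ((u⁻¹ : Lˣ) : L) * (u : L) = 1 := u.inv_mul
  have s5 : Q.S u⁻¹ y := by
    refine (h2 L A Q (u * u) y u⁻¹ hyU ?_).1 s4
    rw [Units.val_mul]
    linear_combination ((1 - (y : L)) * (u : L)) * hui - hyu - two
  have hun1 : IsUnit (1 - (y : L)) := by
    refine IsUnit.of_mul_eq_one (u : L) ?_
    linear_combination -hyu - two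
  have huU : u ∈ Q.U := by
    refine h3 L A Q u y y s1 s5 (hun1.mul hun1) ?_
    intro N h1N hst
    have my : (y : L) ∈ mr N := fun z hz => hst y s1 z hz
    have mρ : (ρ : L) ∈ mr N := fun z hz => hst ρ s2 z hz
    -- `1 + y ρ` is a unit
    obtain ⟨e, he⟩ : ∃ e : Lˣ, e = D * (X⁻¹ * H1⁻¹) := ⟨_, rfl⟩
    have hev : (e : L) = 1 + (y : L) * (ρ : L) := by
      rw [he, hyv, hρv, Units.val_mul, Units.val_mul]
      linear_combination (((X⁻¹ : Lˣ) : L) * ((H1⁻¹ : Lˣ) : L)) * hD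
        - ((H : L) * ((X⁻¹ : Lˣ) : L) * ((H1⁻¹ : Lˣ) : L)) * hX1e
        + (((H1⁻¹ : Lˣ) : L) - (H : L) * ((H1⁻¹ : Lˣ) : L)) * hXX + hHH
        - ((H : L) * ((H1⁻¹ : Lˣ) : L)) * two - ((H1⁻¹ : Lˣ) : L) * hH1e
    have me : (e : L) ∈ mr N := by
      rw [hev]
      exact add_mem (one_mem _) (mul_mem my mρ)
    have mei := mr_inv N e me
    have hei : e⁻¹ = D⁻¹ * (X * H1) := by
      rw [he, mul_inv, mul_inv, inv_inv, inv_inv]
    have hξ : (X : L) = (1 + (ρ : L)) * ((e⁻¹ : Lˣ) : L) := by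
      rw [hei, hρv, Units.val_mul, Units.val_mul]
      linear_combination (-(X : L)) * hDD
        - ((X1 : L) * ((D⁻¹ : Lˣ) : L) * (X : L)) * hHH
        + ((X : L) * ((D⁻¹ : Lˣ) : L)) * hD - ((X : L) * ((D⁻¹ : Lˣ) : L)) * hH1e
        - ((X : L) * ((D⁻¹ : Lˣ) : L)) * hX1e - ((X : L) * ((D⁻¹ : Lˣ) : L)) * two
    have mX : (X : L) ∈ mr N := by
      rw [hξ]
      exact mul_mem (add_mem (one_mem _) mρ) mei
    have mH : (H : L) ∈ mr N := by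
      have : (H : L) = (y : L) * (X : L) := by
        rw [hyv]
        linear_combination (-(H : L)) * hXX
      rw [this]
      exact mul_mem my mX
    exact hN N h1N (fun z hz => mX z hz) (fun z hz => mH z hz)
  refine ⟨D, ?_, hD⟩
  have : D = u⁻¹ * X := by
    rw [hu, mul_inv, inv_inv, mul_comm X⁻¹ D, mul_assoc, inv_mul_cancel, mul_one]
  rw [this]
  exact Q.U.mul_mem (Q.U.inv_mem huU) hX

end Pool.Agent.Helper95.C2
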